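import Pool.Agent.H98.SD.Lib
import Pool.Agent.H98.SD.TargetsM

/-!
# MP_e37c09_lc, SecondDichotomy, row ALM: all classes occur for one parameter, any cofinality
-/

open Ordinal Cardinal Order Set
open scoped ZFSet

universe u

namespace Pool.Agent.H25.SD

open _root_.HD _root_.HD.SD
open HD.NF (w0)

theorem pf_ALM : T_MAX.{u} → T_CDX.{u} → T_TRN.{u} → T_CNM.{u} → T_EQM.{u} → T_ALM.{u} := by
  intro hMAX hCDX hTRN hCNT hEQV en t L hst M hM0 hML μ hns
  obtain ⟨e1, e2, e3, e4⟩ := hEQV μ (succ L).ord (cof_succ_lt hst.unc)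
  have hν : (succ ((2 : Cardinal.{u}) ^ M)).ord < L.ord := pow_lt hst.lim hML
  -- change of the parameter
  have key : ∀ x y, y ⊆ L.ord.toZFSet → NF.ODp x y → ∀ c, ∃ c',
      EqvM μ (succ L).ord (Sc en y c) (Sc en x c') := by
    intro x y hy hod c
    obtain ⟨c', hc'⟩ := (hTRN en hst.hen y x hod).2.1 (succ L).ord c
    refine ⟨c', e4 _ _ fun b hb => ?_⟩
    rw [hc' b]
    exact ⟨fun h => ⟨hb, h⟩, fun h => h.2⟩
  let α : Type (u + 1) := {p : ZFSet.{u} × Ordinal.{u} // p.1 ⊆ L.ord.toZFSet}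
  have : Nonempty α := ⟨⟨(∅, 0), ZFSet.empty_subset _⟩⟩
  rcases hMAX α (fun p q => EqvM μ (succ L).ord (Sc en p.1.1 p.1.2) (Sc en q.1.1 q.1.2))
    (succ ((2 : Cardinal.{u}) ^ M)).ord with ⟨f, hf⟩ | ⟨τ, hτ, f, hf⟩
  · exfalso
    obtain ⟨x, hx, hod⟩ := hCDX en t L hst (fun i => (f i).1.1) (fun i _ => (f i).2)
    have h1 : ∀ i, ∃ d, i < (succ ((2 : Cardinal.{u}) ^ M)).ord →
        EqvM μ (succ L).ord (Sc en (f i).1.1 (f i).1.2) (Sc en x d) ∧
        ∀ c' < d, ¬ EqvM μ (succ L).ord (Sc en x d) (Sc en x c') := by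
      intro i
      by_cases hi : i < (succ ((2 : Cardinal.{u}) ^ M)).ord
      · obtain ⟨c', hc'⟩ := key x (f i).1.1 (f i).2 (hod i (hi.trans hν)) (f i).1.2
        have hne : ({c | EqvM μ (succ L).ord (Sc en (f i).1.1 (f i).1.2) (Sc en x c)} :
            Set Ordinal.{u}).Nonempty := ⟨c', hc'⟩
        refine ⟨sInf {c | EqvM μ (succ L).ord (Sc en (f i).1.1 (f i).1.2) (Sc en x c)},
          fun _ => ⟨csInf_mem hne, fun c'' h h' => ?_⟩⟩
        exact absurd (csInf_le' (s := {c | EqvM μ (succ L).ord (Sc en (f i).1.1 (f i).1.2)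
          (Sc en x c)}) (e3 _ _ _ (csInf_mem hne) h')) (not_le.2 h)
      · exact ⟨0, fun h => absurd h hi⟩
    choose d hd using h1
    refine few_noinj (hCNT en t L hst x hx M hM0 hML μ (hns x hx.sub)) d
      (fun i hi => (hd i hi).2) fun i hi k hk he => ?_
    rcases lt_trichotomy i k with hik | hik | hik
    · refine absurd (e3 _ _ _ (hd k hk).1 ?_) (hf k hk i hik)
      rw [← he]
      exact e2 _ _ (hd i hi).1
    · exact hik
    · refine absurd (e3 _ _ _ (hd i hi).1 ?_) (hf i hi k hik)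
      rw [he]
      exact e2 _ _ (hd k hk).1
  · obtain ⟨x, hx, hod⟩ := hCDX en t L hst (fun i => (f i).1.1) (fun i _ => (f i).2)
    refine ⟨x, hx, fun y hy c => ?_⟩
    obtain ⟨i, hi, h⟩ := hf ⟨(y, c), hy⟩
    obtain ⟨c', hc'⟩ := key x (f i).1.1 (f i).2 (hod i (hi.trans (hτ.trans hν))) (f i).1.2
    exact ⟨c', e3 _ _ _ h hc'⟩

end Pool.Agent.H25.SD
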